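import Pool.Agent.Helper92.RG.Main
import Pool.Agent.Helper92.RG.Conv
import Pool.Agent.Helper92.RG.CumMain
import Pool.Agent.Helper93.LP.Main
import Pool.Agent.Helper6.FU.Main

open Filter Topology
open Pool.Agent.Helper57.PC
open scoped ENNReal

namespace Pool.Agent.Results.MP_8958e8_nt.Equivalences

/-- `N(T;α,β)` for the zeros on the critical line only: the number of ordered pairs of zeros on the line
with ordinates in `[0,T]`, counted with multiplicity, whose normalised difference lies in `[α,β]`. -/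
noncomputable def critPairs (T α β : ℝ) : ℝ :=
  ∑ᶠ p ∈ {p : ℂ × ℂ | p.1 ∈ zerosUpTo T ∧ p.2 ∈ zerosUpTo T ∧ p.1.re = 1 / 2 ∧ p.2.re = 1 / 2 ∧
    (p.1.im - p.2.im) * Real.log T / (2 * Real.pi) ∈ Set.Icc α β}, ((mult p.1 : ℝ) * (mult p.2 : ℝ))

/-- The number of zeros on the critical line with ordinate in `[0,T]`, counted with multiplicity. -/
noncomputable def critZeros (T : ℝ) : ℝ := ∑ᶠ ρ ∈ {ρ : ℂ | ρ ∈ zerosUpTo T ∧ ρ.re = 1 / 2}, (mult ρ : ℝ)

/-- Asymptotic lower bound along `l` for the count `N` in the window `[α,β]`, with density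
`1 - (sin πu/πu)² - E(u)`. -/
def Lower (l : Filter ℝ) (N : ℝ → ℝ → ℝ → ℝ) (E : ℝ → ℝ) (α β : ℝ) : Prop :=
  ∀ δ : ℝ, 0 < δ → ∀ᶠ T : ℝ in l,
    ((∫ u in α..β, (pcDensity u - E u)) - δ) * (T * Real.log T / (2 * Real.pi)) ≤ N T α β

/-- Asymptotic upper bound along `l` for the count `N` in the window `[α,β]`, with density
`1 - (sin πu/πu)² + E(u)`. -/
def Upper (l : Filter ℝ) (N : ℝ → ℝ → ℝ → ℝ) (E : ℝ → ℝ) (α β : ℝ) : Prop :=
  ∀ δ : ℝ, 0 < δ → ∀ᶠ T : ℝ in l,
    N T α β ≤ ((∫ u in α..β, (pcDensity u + E u)) + δ) * (T * Real.log T / (2 * Real.pi))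

/-- The conjecture along `l`: the law for the windows `0 < α < β`. -/
def PairLaw (l : Filter ℝ) : Prop := ∀ α β : ℝ, 0 < α → α < β →
  Tendsto (fun T : ℝ => pairCount T α β / (T * Real.log T / (2 * Real.pi))) l (𝓝 (∫ u in α..β, pcDensity u))

open Classical in
/-- The law along `l` for all windows, with a mass `1` at the origin. -/
def FullLaw (l : Filter ℝ) : Prop := ∀ α β : ℝ, α ≤ β →
  Tendsto (fun T : ℝ => pairCount T α β / (T * Real.log T / (2 * Real.pi))) l
    (𝓝 ((∫ u in α..β, pcDensity u) + if α ≤ 0 ∧ 0 ≤ β then 1 else 0))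

/-- The upper bounds for the symmetric windows: for every `β > 0` at most the predicted number of pairs of zeros (equal zeros included)
is at normalised distance at most `β`. -/
def SymmetricUpper (l : Filter ℝ) : Prop := ∀ β : ℝ, 0 < β → ∀ δ : ℝ, 0 < δ → ∀ᶠ T : ℝ in l,
  pairCount T (-β) β ≤ (1 + (∫ u in (-β)..β, pcDensity u) + δ) * (T * Real.log T / (2 * Real.pi))

/-- The lower bounds for the symmetric windows. -/
def SymmetricLower (l : Filter ℝ) : Prop := ∀ β : ℝ, 0 < β → ∀ δ : ℝ, 0 < δ → ∀ᶠ T : ℝ in l,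
  (1 + (∫ u in (-β)..β, pcDensity u) - δ) * (T * Real.log T / (2 * Real.pi)) ≤ pairCount T (-β) β

/-- One sign change: for some `x₀ ∈ [0,∞]` the lower bounds hold for the windows inside `(0,x₀]` and the upper bounds for the
windows inside `[x₀,∞)`. -/
def OneSignChange (l : Filter ℝ) : Prop := ∃ x₀ : ℝ≥0∞,
  (∀ α β : ℝ, 0 < α → α < β → ENNReal.ofReal β ≤ x₀ → Lower l pairCount (fun _ => 0) α β) ∧
  (∀ α β : ℝ, 0 < α → α < β → x₀ ≤ ENNReal.ofReal α → Upper l pairCount (fun _ => 0) α β)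

/-- The lower bounds for the pairs of zeros on the line, up to an exponentially decaying density. -/
def CriticalLower (l : Filter ℝ) : Prop := ∃ C c : ℝ, 0 < c ∧
  ∀ α β : ℝ, 0 < α → α < β → Lower l critPairs (fun u => C * Real.exp (-c * u)) α β

/-- Almost all zeros are on the line, and for some nonzero polynomial `P` the lower bounds hold in the windows where `P(u²) < 0` and the upper
bounds in the windows where `P(u²) > 0`, both up to an exponentially decaying density. -/
def FinitelyManySignChanges (l : Filter ℝ) : Prop :=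
  Tendsto (fun T : ℝ => critZeros T / (T * Real.log T / (2 * Real.pi))) l (𝓝 1) ∧
  ∃ C c : ℝ, 0 < c ∧ ∃ P : Polynomial ℝ, P ≠ 0 ∧
    (∀ α β : ℝ, 0 < α → α < β → (∀ u ∈ Set.Icc α β, P.eval (u ^ 2) < 0) →
      Lower l pairCount (fun u => C * Real.exp (-c * u)) α β) ∧
    (∀ α β : ℝ, 0 < α → α < β → (∀ u ∈ Set.Icc α β, 0 < P.eval (u ^ 2)) →
      Upper l pairCount (fun u => C * Real.exp (-c * u)) α β)

/-- The form factor of the ordinates, `(T log T/2π)⁻¹ |∑ m_ρ T^(i x γ)|²` over the zeros `ρ` with ordinate `γ` in `[0,T]`: the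
Fourier transform at `x` of the normalised pair counting measure. -/
noncomputable def formFactor (T x : ℝ) : ℝ :=
  ‖∑ᶠ ρ ∈ zerosUpTo T, (mult ρ : ℂ) * Complex.exp (((x * Real.log T * ρ.im : ℝ) : ℂ) * Complex.I)‖ ^ 2 /
    (T * Real.log T / (2 * Real.pi))

/-- The form factor tends to `min(x,1)` on average over every interval in `(0,∞)`. -/
def FormFactorLaw (l : Filter ℝ) : Prop := ∀ a b : ℝ, 0 < a → a < b →
  Tendsto (fun T : ℝ => ∫ x in a..b, formFactor T x) l (𝓝 (∫ x in a..b, min x 1))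

/-- For some `θ < 1` the form factor is asymptotically at most `min(x,1)` on average over every interval in `(θ,∞)`. -/
def FormFactorUpper (l : Filter ℝ) : Prop := ∃ θ : ℝ, 0 ≤ θ ∧ θ < 1 ∧ ∀ a b : ℝ, θ < a → a < b →
  ∀ ε : ℝ, 0 < ε → ∀ᶠ T : ℝ in l, ∫ x in a..b, formFactor T x ≤ (∫ x in a..b, min x 1) + ε

/-- The real weight `w` is smooth with compact support contained in `(θ,∞)`. -/
def IsWeight (θ : ℝ) (w : ℝ → ℝ) : Prop :=
  ContDiff ℝ (⊤ : ℕ∞) w ∧ HasCompactSupport w ∧ tsupport w ⊆ Set.Ioi θ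

/-- The Dirichlet polynomial `(1/log T) ∑ Λ(n) n^(-1/2-it) w(log n/log T)`. -/
noncomputable def primeSum (T : ℝ) (w : ℝ → ℝ) (t : ℝ) : ℂ :=
  (∑' n : ℕ, ((ArithmeticFunction.vonMangoldt n : ℝ) : ℂ) *
    (n : ℂ) ^ (-((1 / 2 : ℂ) + (t : ℂ) * Complex.I)) * ((w (Real.log n / Real.log T) : ℝ) : ℂ)) /
      ((Real.log T : ℝ) : ℂ)

/-- Its mean square over `[0,T]`, capped at `B`. -/
noncomputable def cappedMeanSquare (T : ℝ) (w : ℝ → ℝ) (B : ℝ) : ℝ :=
  (1 / T) * ∫ t in (0:ℝ)..T, min (‖primeSum T w t‖ ^ 2) B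

/-- The predicted value `∫_0^∞ min(x,1) w(x)² dx`. -/
noncomputable def predicted (w : ℝ → ℝ) : ℝ := ∫ x in Set.Ioi (0:ℝ), min x 1 * w x ^ 2

open Pool.Agent.Helper93.LP in
lemma capped_eq (T : ℝ) (w : ℝ → ℝ) (B : ℝ) : cappedMeanSquare T w B = MP T (fun x => (w x : ℂ)) B := by
  unfold cappedMeanSquare MP primeSum PP
  simp only [div_eq_inv_mul]

open Pool.Agent.Helper93.LP in
lemma isWeight_iff {θ : ℝ} (hθ : 0 ≤ θ) (w : ℝ → ℝ) :
    IsWeight θ w ↔ ∃ a b : ℝ, WR w a b ∧ θ < a := by
  constructor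
  · rintro ⟨h1, h2, h3⟩
    by_cases hne : (tsupport w).Nonempty
    · obtain ⟨a, ha, hamin⟩ := h2.exists_isMinOn hne continuous_id.continuousOn
      obtain ⟨b, hb, hbmax⟩ := h2.exists_isMaxOn hne continuous_id.continuousOn
      have haθ : θ < a := h3 ha
      refine ⟨a, b, ⟨h1, lt_of_le_of_lt hθ haθ, hbmax ha, fun x hx => ?_⟩, haθ⟩
      have hx' : x ∈ tsupport w := subset_tsupport w hx
      exact ⟨hamin hx', hbmax hx'⟩
    · rw [Set.not_nonempty_iff_eq_empty] at hne
      refine ⟨θ + 1, θ + 1, ⟨h1, by linarith, le_rfl, fun x hx => ?_⟩, by linarith⟩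
      have hx' : x ∈ tsupport w := subset_tsupport w hx
      rw [hne] at hx'
      exact absurd hx' (Set.notMem_empty x)
  · rintro ⟨a, b, ⟨h1, _, _, h4⟩, haθ⟩
    have hs : tsupport w ⊆ Set.Icc a b := closure_minimal (fun x hx => h4 x hx) isClosed_Icc
    exact ⟨h1, HasCompactSupport.intro isCompact_Icc fun x hx => by
      by_contra h0
      exact hx (h4 x h0), fun x hx => lt_of_lt_of_le haθ (hs hx).1⟩

/-- For every weight with support in `(0,∞)` the mean square of the prime sum has the predicted value: first `T → ∞` along `l`,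
then the cap `B → ∞`. -/
def PrimeSumLaw (l : Filter ℝ) : Prop := ∀ w : ℝ → ℝ, IsWeight 0 w → ∀ ε : ℝ, 0 < ε → ∃ B₀ : ℝ, ∀ B : ℝ, B₀ ≤ B →
  ∀ᶠ T : ℝ in l, |cappedMeanSquare T w B - predicted w| ≤ ε

/-- For some `θ < 1` and every weight with support in `(θ,∞)` the capped mean squares of the prime sum are asymptotically at most the
predicted value. -/
def PrimeSumUpper (l : Filter ℝ) : Prop := ∃ θ : ℝ, 0 ≤ θ ∧ θ < 1 ∧ ∀ w : ℝ → ℝ, IsWeight θ w →
  ∀ B : ℝ, 0 < B → ∀ ε : ℝ, 0 < ε → ∀ᶠ T : ℝ in l, cappedMeanSquare T w B ≤ predicted w + ε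

/-- For every `a > 0` the mean square over `[0,T]` of `ζ'/ζ(1/2 + a/log T + it)/log T`, capped at `B`, tends to `(1 - exp(-2a))/(4a²)`:
first `T → ∞` along `l`, then `B → ∞`. -/
def LogDerivLaw (l : Filter ℝ) : Prop := ∀ a : ℝ, 0 < a → ∀ ε : ℝ, 0 < ε → ∃ B₀ : ℝ, ∀ B : ℝ, B₀ ≤ B → ∀ᶠ T : ℝ in l,
  |(1 / T) * (∫ t in (0:ℝ)..T, min (‖logDeriv riemannZeta
      (((1 / 2 + a / Real.log T : ℝ) : ℂ) + (t : ℂ) * Complex.I) / (Real.log T : ℂ)‖ ^ 2) B) -
    (1 - Real.exp (-2 * a)) / (4 * a ^ 2)| ≤ ε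

lemma formFactor_eq (T x : ℝ) : formFactor T x = Pool.Agent.Helper6.FU.FO T x := by
  unfold formFactor Pool.Agent.Helper6.FU.FO
  rw [finsum_mem_eq_finite_toFinset_sum _ (Pool.Agent.Helper57.Zeta.zerosUpTo_finite T)]
  rfl

/-- Twelve equivalent forms of the pair correlation conjecture, without the Riemann hypothesis. Let `l` be a countably generated
filter finer than `atTop` (`atTop` itself, or a sequence of heights tending to infinity). The following are equivalent along `l`:
the conjecture Q1; its law for all windows; the upper bounds for the symmetric windows; the lower bounds for the symmetric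
windows; one-sided bounds with at most one sign change; the lower bounds for the zeros on the line up to an exponentially
decaying density; one-sided bounds with finitely many sign changes together with almost all zeros on the line; the
asymptotic formula for the form factor on average; the upper bounds for the form factor beyond some `θ < 1`; the
asymptotic formula for the mean squares of prime sums; the upper bounds for the mean squares of the prime sums beyond some
`θ < 1`; the Goldston-Gonek-Montgomery law for the logarithmic derivative. -/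
theorem result (l : Filter ℝ) [l.IsCountablyGenerated] (hl : l ≤ atTop) :
    List.TFAE [PairLaw l, FullLaw l, SymmetricUpper l, SymmetricLower l, OneSignChange l, CriticalLower l,
      FinitelyManySignChanges l, FormFactorLaw l, FormFactorUpper l, PrimeSumLaw l, PrimeSumUpper l, LogDerivLaw l] := by
  have hSN : ∀ T : ℝ, 1 < T → 0 < T * Real.log T / (2 * Real.pi) := fun T hT => Pool.Agent.Helper57.PC.SN_pos hT
  have hlow : PairLaw l → ∀ α β : ℝ, 0 < α → α < β → Lower l pairCount (fun _ => 0) α β := by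
    intro h α β hα hαβ δ hδ
    filter_upwards [(h α β hα hαβ).eventually (lt_mem_nhds (sub_lt_self _ hδ)), hl (eventually_gt_atTop 1)] with T hT hT1
    simp only [sub_zero]
    exact ((lt_div_iff₀ (hSN T hT1)).mp hT).le
  tfae_have 2 → 1 := by
    intro h α β hα hαβ
    have h1 := h α β hαβ.le
    rwa [if_neg (fun hh => absurd hh.1 (not_le.mpr hα)), add_zero] at h1
  tfae_have 1 → 5 := by
    intro h
    refine ⟨⊤, fun α β hα hαβ _ => hlow h α β hα hαβ, ?_⟩
    intro α β hα hαβ htop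
    simp at htop
  tfae_have 5 → 2 := by
    rintro ⟨x₀, hlo, hup⟩
    refine Pool.Agent.Helper92.RG.clause_one hl x₀ ?_ ?_
    · intro α β hα hαβ hβ δ hδ
      simpa [Lower] using hlo α β hα hαβ hβ δ hδ
    · intro α β hα hαβ hβ δ hδ
      simpa [Upper] using hup α β hα hαβ hβ δ hδ
  tfae_have 6 → 2 := by
    rintro ⟨C, c, hc, h⟩
    exact Pool.Agent.Helper92.RG.clause_two hl hc h
  tfae_have 7 → 2 := by
    rintro ⟨hcrit, C, c, hc, P, hP, hlo, hup⟩
    exact Pool.Agent.Helper92.RG.clause_three hl hcrit P hP hc hlo hup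
  tfae_have 2 → 6 := by
    intro h
    refine ⟨0, 1, one_pos, fun α β hα hαβ δ hδ => ?_⟩
    have h1 := Pool.Agent.Helper92.RG.crit_of_law hl h hα hαβ hδ
    simp only [zero_mul, sub_zero]
    exact h1
  tfae_have 2 → 7 := by
    intro h
    have h0 := h 0 0 le_rfl
    simp only [intervalIntegral.integral_same, le_refl, and_self, if_true, zero_add] at h0
    refine ⟨Pool.Agent.Helper92.RG.crit_of_nl hl (Pool.Agent.Helper92.RG.nl_of_law hl h0), 0, 1, one_pos,
      Polynomial.C (-1), by simp, ?_, ?_⟩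
    · intro α β hα hαβ _ δ hδ
      have h1 := hlow (tfae_2_to_1 h) α β hα hαβ δ hδ
      simpa [Lower] using h1
    · intro α β hα hαβ hs
      have := hs α ⟨le_rfl, hαβ.le⟩
      simp at this
      linarith
  have hsym : FullLaw l → ∀ β : ℝ, 0 < β →
      Tendsto (fun T : ℝ => pairCount T (-β) β / (T * Real.log T / (2 * Real.pi))) l (𝓝 (1 + ∫ u in (-β)..β, pcDensity u)) := by
    intro h β hβ
    have h1 := h (-β) β (by linarith)
    rwa [if_pos ⟨by linarith, hβ.le⟩, add_comm] at h1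
  tfae_have 2 → 3 := by
    intro h β hβ δ hδ
    filter_upwards [(hsym h β hβ).eventually (gt_mem_nhds (lt_add_of_pos_right _ hδ)), hl (eventually_gt_atTop 1)] with T hT hT1
    exact ((div_lt_iff₀ (hSN T hT1)).mp hT).le
  tfae_have 2 → 4 := by
    intro h β hβ δ hδ
    filter_upwards [(hsym h β hβ).eventually (lt_mem_nhds (sub_lt_self _ hδ)), hl (eventually_gt_atTop 1)] with T hT hT1
    exact ((lt_div_iff₀ (hSN T hT1)).mp hT).le
  tfae_have 3 → 2 := fun h => Pool.Agent.Helper92.RG.clause_cum hl (Or.inr h)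
  tfae_have 4 → 2 := fun h => Pool.Agent.Helper92.RG.clause_cum hl (Or.inl h)
  tfae_have 1 → 8 := by
    intro h
    have h1 := Pool.Agent.Helper6.FU.ffLaw_of_lawP hl (Pool.Agent.Helper93.LP.off_and_lawP hl h).2
    intro a b ha hab
    simp only [formFactor_eq]
    exact h1 a b ha hab
  tfae_have 8 → 9 := by
    intro h
    refine ⟨0, le_rfl, zero_lt_one, fun a b ha hab ε hε => ?_⟩
    filter_upwards [(h a b ha hab).eventually (gt_mem_nhds
      (show (∫ x in a..b, min x 1) < (∫ x in a..b, min x 1) + ε by linarith))] with T hT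
    exact hT.le
  tfae_have 9 → 1 := by
    rintro ⟨θ, h0, h1, h⟩
    refine Pool.Agent.Helper6.FU.q1_of_ffUp hl h0 h1 fun a b ha hab ε hε => ?_
    have h2 := h a b ha hab ε hε
    simp only [formFactor_eq] at h2
    exact h2
  tfae_have 1 → 10 := by
    intro h w hw ε hε
    obtain ⟨a, b, hab, ha⟩ := (isWeight_iff le_rfl w).mp hw
    obtain ⟨B₀, hB⟩ := Pool.Agent.Helper93.LP.main_two hl h hab hε
    refine ⟨B₀, fun B hB' => ?_⟩
    filter_upwards [hB B hB'] with T hT
    rw [capped_eq]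
    exact hT
  tfae_have 10 → 11 := by
    intro h
    refine ⟨0, le_rfl, zero_lt_one, fun w hw B hB ε hε => ?_⟩
    obtain ⟨B₀, hB₀⟩ := h w hw ε hε
    obtain ⟨a, b, hab, ha⟩ := (isWeight_iff le_rfl w).mp hw
    filter_upwards [hB₀ (max B₀ B) (le_max_left _ _), hl (eventually_gt_atTop 1)] with T hT hT1
    have h1 : cappedMeanSquare T w B ≤ cappedMeanSquare T w (max B₀ B) := by
      rw [capped_eq, capped_eq]
      have hc := Pool.Agent.Helper93.LP.PP_cont hT1 hab.toWC
      unfold Pool.Agent.Helper93.LP.MP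
      have hT0 : (0:ℝ) ≤ T := by linarith
      refine mul_le_mul_of_nonneg_left ?_ (by positivity)
      refine intervalIntegral.integral_mono_on hT0 (((hc.norm.pow 2).min continuous_const).intervalIntegrable _ _)
        (((hc.norm.pow 2).min continuous_const).intervalIntegrable _ _) fun t _ => ?_
      exact min_le_min_left _ (le_max_right _ _)
    have h2 := (abs_le.mp hT).2
    linarith
  tfae_have 11 → 1 := by
    rintro ⟨θ, hθ0, hθ, h⟩
    refine (Pool.Agent.Helper93.LP.main_up hl hθ).mpr ?_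
    intro w a b hab ha B hB ε hε
    filter_upwards [h w ((isWeight_iff hθ0 w).mpr ⟨a, b, hab, ha⟩) B hB ε hε] with T hT
    rw [capped_eq] at hT
    exact hT
  tfae_have 1 ↔ 12 := Pool.Agent.Helper69.GGM.main_iff hl
  tfae_finish

end Pool.Agent.Results.MP_8958e8_nt.Equivalences
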