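import Pool.Agent.Helper92.RG.Main
import Pool.Agent.Helper92.RG.Conv
import Pool.Agent.Helper92.RG.CumMain
import Pool.Agent.Helper93.LP.Main
import Pool.Agent.Helper6.FU.Main

open Filter Topology
open Pool.Agent.Helper57.PC
open scoped ENNReal

namespace Pool.Agent.Results.MP_8958e8_nt.OneSidedForms

/-- The conjecture Q1 along `l`: for all `0 < α < β`, `N(T;α,β)/(T log T/2π)` tends to `∫_α^β F`. -/
def PairLaw (l : Filter ℝ) : Prop := ∀ α β : ℝ, 0 < α → α < β →
  Tendsto (fun T : ℝ => pairCount T α β / (T * Real.log T / (2 * Real.pi))) l (𝓝 (∫ u in α..β, pcDensity u))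

/-- The upper bounds of Q1 alone: `N(T;α,β) ≤ (∫_α^β F + o(1)) T log T/2π` for all `0 < α < β`. -/
def UpperHalf (l : Filter ℝ) : Prop := ∀ α β : ℝ, 0 < α → α < β → ∀ δ : ℝ, 0 < δ → ∀ᶠ T : ℝ in l,
  pairCount T α β ≤ ((∫ u in α..β, pcDensity u) + δ) * (T * Real.log T / (2 * Real.pi))

/-- The lower bounds of Q1 alone: `N(T;α,β) ≥ (∫_α^β F - o(1)) T log T/2π` for all `0 < α < β`. -/
def LowerHalf (l : Filter ℝ) : Prop := ∀ α β : ℝ, 0 < α → α < β → ∀ δ : ℝ, 0 < δ → ∀ᶠ T : ℝ in l,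
  ((∫ u in α..β, pcDensity u) - δ) * (T * Real.log T / (2 * Real.pi)) ≤ pairCount T α β

/-- Upper bounds for the symmetric windows: for every `β > 0` at most the predicted number of pairs of zeros (equal zeros included)
is at normalised distance at most `β`. -/
def SymmetricUpper (l : Filter ℝ) : Prop := ∀ β : ℝ, 0 < β → ∀ δ : ℝ, 0 < δ → ∀ᶠ T : ℝ in l,
  pairCount T (-β) β ≤ (1 + (∫ u in (-β)..β, pcDensity u) + δ) * (T * Real.log T / (2 * Real.pi))

/-- Lower bounds for the symmetric windows. -/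
def SymmetricLower (l : Filter ℝ) : Prop := ∀ β : ℝ, 0 < β → ∀ δ : ℝ, 0 < δ → ∀ᶠ T : ℝ in l,
  (1 + (∫ u in (-β)..β, pcDensity u) - δ) * (T * Real.log T / (2 * Real.pi)) ≤ pairCount T (-β) β

/-- `N(T;α,β)` for the zeros on the critical line only: the number of ordered pairs of zeros on the line
with ordinates in `[0,T]`, counted with multiplicity, whose normalised difference lies in `[α,β]`. -/
noncomputable def critPairs (T α β : ℝ) : ℝ :=
  ∑ᶠ p ∈ {p : ℂ × ℂ | p.1 ∈ zerosUpTo T ∧ p.2 ∈ zerosUpTo T ∧ p.1.re = 1 / 2 ∧ p.2.re = 1 / 2 ∧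
    (p.1.im - p.2.im) * Real.log T / (2 * Real.pi) ∈ Set.Icc α β}, ((mult p.1 : ℝ) * (mult p.2 : ℝ))

/-- Lower bounds for the pairs of zeros on the line, up to an exponentially decaying density: for some `C` and `c > 0`
at least `∫_α^β (F(u) - C exp(-cu)) du - o(1)` times `T log T/2π` pairs, for all `0 < α < β`. -/
def CriticalLower (l : Filter ℝ) : Prop := ∃ C c : ℝ, 0 < c ∧ ∀ α β : ℝ, 0 < α → α < β →
  ∀ δ : ℝ, 0 < δ → ∀ᶠ T : ℝ in l,
    ((∫ u in α..β, (pcDensity u - C * Real.exp (-c * u))) - δ) * (T * Real.log T / (2 * Real.pi)) ≤ critPairs T α β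

/-- The form factor of the ordinates, `(T log T/2π)⁻¹ |∑ m_ρ T^(i x γ)|²` over the zeros `ρ` with ordinate `γ` in `[0,T]`: the
Fourier transform at `x` of the normalised pair counting measure. -/
noncomputable def formFactor (T x : ℝ) : ℝ :=
  ‖∑ᶠ ρ ∈ zerosUpTo T, (mult ρ : ℂ) * Complex.exp (((x * Real.log T * ρ.im : ℝ) : ℂ) * Complex.I)‖ ^ 2 /
    (T * Real.log T / (2 * Real.pi))

/-- For some `θ < 1` the form factor is asymptotically at most `min(x,1)` on average over every interval in `(θ,∞)`. -/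
def FormFactorUpper (l : Filter ℝ) : Prop := ∃ θ : ℝ, 0 ≤ θ ∧ θ < 1 ∧ ∀ a b : ℝ, θ < a → a < b →
  ∀ ε : ℝ, 0 < ε → ∀ᶠ T : ℝ in l, ∫ x in a..b, formFactor T x ≤ (∫ x in a..b, min x 1) + ε

/-- The real weight `w` is smooth with compact support contained in `(θ,∞)`. -/
def IsWeight (θ : ℝ) (w : ℝ → ℝ) : Prop :=
  ContDiff ℝ (⊤ : ℕ∞) w ∧ HasCompactSupport w ∧ tsupport w ⊆ Set.Ioi θ

/-- The Dirichlet polynomial `(1/log T) ∑ Λ(n) n^(-1/2-it) w(log n/log T)`. -/
noncomputable def primeSum (T : ℝ) (w : ℝ → ℝ) (t : ℝ) : ℂ :=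
  (∑' n : ℕ, ((ArithmeticFunction.vonMangoldt n : ℝ) : ℂ) *
    (n : ℂ) ^ (-((1 / 2 : ℂ) + (t : ℂ) * Complex.I)) * ((w (Real.log n / Real.log T) : ℝ) : ℂ)) /
      ((Real.log T : ℝ) : ℂ)

/-- Its mean square over `[0,T]`, capped at `B`. -/
noncomputable def cappedMeanSquare (T : ℝ) (w : ℝ → ℝ) (B : ℝ) : ℝ :=
  (1 / T) * ∫ t in (0:ℝ)..T, min (‖primeSum T w t‖ ^ 2) B

/-- The predicted value `∫_0^∞ min(x,1) w(x)² dx`. -/
noncomputable def predicted (w : ℝ → ℝ) : ℝ := ∫ x in Set.Ioi (0:ℝ), min x 1 * w x ^ 2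

/-- For some `θ < 1` and every weight with support in `(θ,∞)` the capped mean squares of the prime sum are asymptotically at most the
predicted value. -/
def PrimeSumUpper (l : Filter ℝ) : Prop := ∃ θ : ℝ, 0 ≤ θ ∧ θ < 1 ∧ ∀ w : ℝ → ℝ, IsWeight θ w →
  ∀ B : ℝ, 0 < B → ∀ ε : ℝ, 0 < ε → ∀ᶠ T : ℝ in l, cappedMeanSquare T w B ≤ predicted w + ε

/-- For every `a > 0` the mean square over `[0,T]` of `ζ'/ζ(1/2 + a/log T + it)/log T`, capped at `B`, tends to `(1 - exp(-2a))/(4a²)`:
first `T → ∞` along `l`, then `B → ∞`. -/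
def LogDerivLaw (l : Filter ℝ) : Prop := ∀ a : ℝ, 0 < a → ∀ ε : ℝ, 0 < ε → ∃ B₀ : ℝ, ∀ B : ℝ, B₀ ≤ B → ∀ᶠ T : ℝ in l,
  |(1 / T) * (∫ t in (0:ℝ)..T, min (‖logDeriv riemannZeta
      (((1 / 2 + a / Real.log T : ℝ) : ℂ) + (t : ℂ) * Complex.I) / (Real.log T : ℂ)‖ ^ 2) B) -
    (1 - Real.exp (-2 * a)) / (4 * a ^ 2)| ≤ ε

lemma formFactor_eq (T x : ℝ) : formFactor T x = Pool.Agent.Helper6.FU.FO T x := by
  unfold formFactor Pool.Agent.Helper6.FU.FO
  rw [finsum_mem_eq_finite_toFinset_sum _ (Pool.Agent.Helper57.Zeta.zerosUpTo_finite T)]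
  rfl

open Pool.Agent.Helper93.LP in
lemma capped_eq (T : ℝ) (w : ℝ → ℝ) (B : ℝ) : cappedMeanSquare T w B = MP T (fun x => (w x : ℂ)) B := by
  unfold cappedMeanSquare MP primeSum PP
  simp only [div_eq_inv_mul]

open Pool.Agent.Helper93.LP in
lemma isWeight_iff {θ : ℝ} (hθ : 0 ≤ θ) (w : ℝ → ℝ) :
    IsWeight θ w ↔ ∃ a b : ℝ, WR w a b ∧ θ < a := by
  constructor
  · rintro ⟨h1, h2, h3⟩
    by_cases hne : (tsupport w).Nonempty
    · obtain ⟨a, ha, hamin⟩ := h2.exists_isMinOn hne continuous_id.continuousOn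
      obtain ⟨b, hb, hbmax⟩ := h2.exists_isMaxOn hne continuous_id.continuousOn
      have haθ : θ < a := h3 ha
      refine ⟨a, b, ⟨h1, lt_of_le_of_lt hθ haθ, hbmax ha, fun x hx => ?_⟩, haθ⟩
      have hx' : x ∈ tsupport w := subset_tsupport w hx
      exact ⟨hamin hx', hbmax hx'⟩
    · rw [Set.not_nonempty_iff_eq_empty] at hne
      refine ⟨θ + 1, θ + 1, ⟨h1, by linarith, le_rfl, fun x hx => ?_⟩, by linarith⟩
      have hx' : x ∈ tsupport w := subset_tsupport w hx
      rw [hne] at hx'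
      exact absurd hx' (Set.notMem_empty x)
  · rintro ⟨a, b, ⟨h1, _, _, h4⟩, haθ⟩
    have hs : tsupport w ⊆ Set.Icc a b := closure_minimal (fun x hx => h4 x hx) isClosed_Icc
    exact ⟨h1, HasCompactSupport.intro isCompact_Icc fun x hx => by
      by_contra h0
      exact hx (h4 x h0), fun x hx => lt_of_lt_of_le haθ (hs hx).1⟩

/-- One-sided forms of the pair correlation conjecture, without the Riemann hypothesis. Let `l` be a countably generated
filter finer than `atTop` (`atTop` itself, or a sequence of heights tending to infinity). The following are equivalent along `l`: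
the conjecture Q1; its upper bounds alone; its lower bounds alone; the upper bounds for the symmetric windows; the lower bounds for the symmetric windows; the lower bounds for the
zeros on the line up to an exponentially decaying density; the upper bounds for the form factor beyond some `θ < 1`; the upper
bounds for the mean squares of the prime sums beyond some `θ < 1`; the Goldston-Gonek-Montgomery law for the logarithmic derivative. -/
theorem result (l : Filter ℝ) [l.IsCountablyGenerated] (hl : l ≤ atTop) :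
    List.TFAE [PairLaw l, UpperHalf l, LowerHalf l, SymmetricUpper l, SymmetricLower l, CriticalLower l, FormFactorUpper l,
      PrimeSumUpper l, LogDerivLaw l] := by
  have hSN : ∀ T : ℝ, 1 < T → 0 < T * Real.log T / (2 * Real.pi) := fun T hT => Pool.Agent.Helper57.PC.SN_pos hT
  have hlow : LowerHalf l → Pool.Agent.Helper92.RG.Law l := by
    intro h
    refine Pool.Agent.Helper92.RG.clause_one hl ⊤ ?_ ?_
    · intro α β hα hαβ _ δ hδ
      exact h α β hα hαβ δ hδ
    · intro α β hα hαβ htop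
      simp at htop
  have hupp : UpperHalf l → Pool.Agent.Helper92.RG.Law l := by
    intro h
    refine Pool.Agent.Helper92.RG.clause_one hl 0 ?_ ?_
    · intro α β hα hαβ h0
      rw [nonpos_iff_eq_zero, ENNReal.ofReal_eq_zero] at h0
      linarith
    · intro α β hα hαβ _ δ hδ
      exact h α β hα hαβ δ hδ
  have h12 : PairLaw l → UpperHalf l := by
    intro h α β hα hαβ δ hδ
    filter_upwards [(h α β hα hαβ).eventually (gt_mem_nhds (lt_add_of_pos_right _ hδ)), hl (eventually_gt_atTop 1)] with T hT hT1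
    exact ((div_lt_iff₀ (hSN T hT1)).mp hT).le
  have h13 : PairLaw l → LowerHalf l := by
    intro h α β hα hαβ δ hδ
    filter_upwards [(h α β hα hαβ).eventually (lt_mem_nhds (sub_lt_self _ hδ)), hl (eventually_gt_atTop 1)] with T hT hT1
    exact ((lt_div_iff₀ (hSN T hT1)).mp hT).le
  have hfull : PairLaw l → Pool.Agent.Helper92.RG.Law l := fun h => hlow (h13 h)
  have hpair : Pool.Agent.Helper92.RG.Law l → PairLaw l := by
    intro h α β hα hαβ
    have h1 := h α β hαβ.le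
    rwa [if_neg (fun hh => absurd hh.1 (not_le.mpr hα)), add_zero] at h1
  have hsym : Pool.Agent.Helper92.RG.Law l → ∀ β : ℝ, 0 < β →
      Tendsto (fun T : ℝ => pairCount T (-β) β / (T * Real.log T / (2 * Real.pi))) l (𝓝 (1 + ∫ u in (-β)..β, pcDensity u)) := by
    intro h β hβ
    have h1 := h (-β) β (by linarith)
    rwa [if_pos ⟨by linarith, hβ.le⟩, add_comm] at h1
  tfae_have 1 → 2 := h12
  tfae_have 2 → 1 := fun h => hpair (hupp h)
  tfae_have 1 → 3 := h13
  tfae_have 3 → 1 := fun h => hpair (hlow h)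
  tfae_have 1 → 4 := by
    intro h β hβ δ hδ
    filter_upwards [(hsym (hfull h) β hβ).eventually (gt_mem_nhds (lt_add_of_pos_right _ hδ)), hl (eventually_gt_atTop 1)] with T hT hT1
    exact ((div_lt_iff₀ (hSN T hT1)).mp hT).le
  tfae_have 1 → 5 := by
    intro h β hβ δ hδ
    filter_upwards [(hsym (hfull h) β hβ).eventually (lt_mem_nhds (sub_lt_self _ hδ)), hl (eventually_gt_atTop 1)] with T hT hT1
    exact ((lt_div_iff₀ (hSN T hT1)).mp hT).le
  tfae_have 4 → 1 := fun h => hpair (Pool.Agent.Helper92.RG.clause_cum hl (Or.inr h))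
  tfae_have 5 → 1 := fun h => hpair (Pool.Agent.Helper92.RG.clause_cum hl (Or.inl h))
  tfae_have 1 → 6 := by
    intro h
    refine ⟨0, 1, one_pos, fun α β hα hαβ δ hδ => ?_⟩
    have h1 := Pool.Agent.Helper92.RG.crit_of_law hl (hfull h) hα hαβ hδ
    simp only [zero_mul, sub_zero]
    exact h1
  tfae_have 6 → 1 := by
    rintro ⟨C, c, hc, h⟩
    exact hpair (Pool.Agent.Helper92.RG.clause_two hl hc h)
  tfae_have 1 → 7 := by
    intro h
    have h1 := Pool.Agent.Helper6.FU.ffLaw_of_lawP hl (Pool.Agent.Helper93.LP.off_and_lawP hl h).2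
    refine ⟨0, le_rfl, zero_lt_one, fun a b ha hab ε hε => ?_⟩
    have h2 := Pool.Agent.Helper6.FU.ffUp_of_ffLaw h1 (θ := 0) le_rfl a b ha hab ε hε
    simp only [formFactor_eq]
    exact h2
  tfae_have 7 → 1 := by
    rintro ⟨θ, h0, h1, h⟩
    refine Pool.Agent.Helper6.FU.q1_of_ffUp hl h0 h1 fun a b ha hab ε hε => ?_
    have h2 := h a b ha hab ε hε
    simp only [formFactor_eq] at h2
    exact h2
  tfae_have 1 → 8 := by
    intro h
    refine ⟨0, le_rfl, zero_lt_one, fun w hw B hB ε hε => ?_⟩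
    obtain ⟨a, b, hab, ha⟩ := (isWeight_iff le_rfl w).mp hw
    filter_upwards [(Pool.Agent.Helper93.LP.main_up hl zero_lt_one).mp h w a b hab ha B hB ε hε] with T hT
    rw [capped_eq]
    exact hT
  tfae_have 8 → 1 := by
    rintro ⟨θ, hθ0, hθ, h⟩
    refine (Pool.Agent.Helper93.LP.main_up hl hθ).mpr ?_
    intro w a b hab ha B hB ε hε
    filter_upwards [h w ((isWeight_iff hθ0 w).mpr ⟨a, b, hab, ha⟩) B hB ε hε] with T hT
    rw [capped_eq] at hT
    exact hT
  tfae_have 1 ↔ 9 := Pool.Agent.Helper69.GGM.main_iff hl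
  tfae_finish

end Pool.Agent.Results.MP_8958e8_nt.OneSidedForms
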